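import Pool.Agent.Lib.MP_cfac74_al.Cov.Final

namespace Pool.Agent.Results.MP_cfac74_al.AllOdd

/-- Every odd `t > 3` is the number of conjugacy classes of a finite non-abelian group of
odd order. -/
theorem result : ∀ t : ℕ, 3 < t → Odd t →
    ∃ (G : Type) (_ : Group G) (_ : Finite G), Odd (Nat.card G) ∧ (∃ a b : G, a * b ≠ b * a) ∧
      Nat.card (ConjClasses G) = t :=
  fun t h3 hodd => Pool.Agent.Lib.MP_cfac74_al.Cov.odd_good t hodd h3

end Pool.Agent.Results.MP_cfac74_al.AllOdd
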